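import Pool.Agent.Y466.TW.Stm

/-! Change of the index set (job TW-ISO, project of helper466; proof by helper43). -/

set_option autoImplicit false

namespace Pool.Agent.Y43.TW.ISO

open Pool.Agent.Y466.TW

/-- the map induced on increasing pairs -/
def pairs {ι κ : Type} [LinearOrder ι] [LinearOrder κ] (e : ι ≃o κ) : P κ ≃ P ι where
  toFun p := ⟨(e.symm p.1.1, e.symm p.1.2), e.symm.lt_iff_lt.2 p.2⟩
  invFun p := ⟨(e p.1.1, e p.1.2), e.lt_iff_lt.2 p.2⟩
  left_inv p := by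
    apply Subtype.ext
    apply Prod.ext <;> simp
  right_inv p := by
    apply Subtype.ext
    apply Prod.ext <;> simp

theorem iso (h : CONGA) : ISO := by
  intro ι κ _ _ _ _ e k w hw hT
  refine ⟨fun a b c d => w (e.symm a) (e.symm b) (e.symm c) (e.symm d),
    ⟨fun i j k l => hw.1 _ _ _ _, fun i j k l => hw.2.1 _ _ _ _, fun i j k l => hw.2.2 _ _ _ _⟩,
    ?_⟩
  have hg : gram (fun a b c d => w (e.symm a) (e.symm b) (e.symm c) (e.symm d))
      = (gram w).submatrix (pairs e) (pairs e) := rfl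
  obtain ⟨α, β, i1, i2, i3, i4, hc, hG⟩ := hT
  refine ⟨α, β, i1, i2, i3, i4, hc, ?_⟩
  rw [hg]
  exact h.1 _ _ _ _ _ _ (h.2.1 _ _ (gram w) (pairs e)).2 hG

end Pool.Agent.Y43.TW.ISO
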