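import Pool.Agent.Y466.TW.Stm

/-! The data of the four-torus (job TW-T4, project of helper466; proof by helper43). -/

set_option autoImplicit false

namespace Pool.Agent.Y43.TW.T4

open Matrix
open Pool.Agent.Y466.TW

/-- the sign of four indices -/
def w4 (i j k l : Fin 4) : ℤ :=
  Int.sign (((j : ℕ) - (i : ℕ) : ℤ) * ((k : ℕ) - (i : ℕ)) * ((l : ℕ) - (i : ℕ)) *
    ((k : ℕ) - (j : ℕ)) * ((l : ℕ) - (j : ℕ)) * ((l : ℕ) - (k : ℕ)))

def tau1 : Matrix (Fin 4) (Fin 4) ℤ := !![0, 1, 0, 0; -1, 0, 0, 0; 0, 0, 0, -1; 0, 0, 1, 0]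

def tau2 : Matrix (Fin 4) (Fin 4) ℤ := !![0, 0, 1, 0; 0, 0, 0, -1; -1, 0, 0, 0; 0, 1, 0, 0]

def v1 (p : P (Fin 4)) : ℤ := if p.1 = (0, 1) then -1 else if p.1 = (2, 3) then 1 else 0

def v2 (p : P (Fin 4)) : ℤ := if p.1 = (0, 2) then 1 else if p.1 = (1, 3) then -1 else 0

/-- the hyperbolic basis -/
def Q : Matrix (P (Fin 4)) ((Fin 0 × Fin 8) ⊕ (Fin 3 ⊕ Fin 3)) ℤ := fun p c =>
  match c with
  | .inl _ => 0
  | .inr (.inl i) =>
      if p.1 = (![(0, 1), (0, 2), (0, 3)] : Fin 3 → Fin 4 × Fin 4) i then 1 else 0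
  | .inr (.inr i) =>
      if p.1 = (![(2, 3), (1, 3), (1, 2)] : Fin 3 → Fin 4 × Fin 4) i then
        (![1, -1, 1] : Fin 3 → ℤ) i else 0

lemma typ : Typ (gram w4) 0 := by
  refine ⟨Fin 0, Fin 3, inferInstance, inferInstance, inferInstance, inferInstance, rfl, Q, Qᵀ,
    ?_, ?_, ?_⟩
  · decide +kernel
  · decide +kernel
  · decide +kernel

lemma alt : Alt w4 := by
  refine ⟨?_, ?_, ?_⟩ <;> decide +kernel

def Q1 : Matrix (Fin 4) (Fin 2 ⊕ Fin 2) ℤ := fun p c =>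
  match c with
  | .inl i => if p = (![0, 3] : Fin 2 → Fin 4) i then 1 else 0
  | .inr i => if p = (![1, 2] : Fin 2 → Fin 4) i then 1 else 0

def Q2 : Matrix (Fin 4) (Fin 2 ⊕ Fin 2) ℤ := fun p c =>
  match c with
  | .inl i => if p = (![0, 3] : Fin 2 → Fin 4) i then 1 else 0
  | .inr i => if p = (![2, 1] : Fin 2 → Fin 4) i then 1 else 0

lemma sp1 : SP tau1 := by
  refine ⟨Fin 2, inferInstance, inferInstance, Q1, Q1ᵀ, ?_, ?_, ?_⟩ <;> decide +kernel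

lemma sp2 : SP tau2 := by
  refine ⟨Fin 2, inferInstance, inferInstance, Q2, Q2ᵀ, ?_, ?_, ?_⟩ <;> decide +kernel

theorem tfour : TFOUR := by
  refine ⟨w4, tau1, tau2, v1, v2, alt, typ, sp1, sp2, ?_, ?_, ?_, ?_, ?_, ?_⟩ <;> decide +kernel

end Pool.Agent.Y43.TW.T4
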